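import Pool.Agent.Helper81.DGX.Fin

/-!
Characterisation of the Douglas algebras all of whose invertible inner functions are Blaschke
products.
-/

set_option autoImplicit false

namespace Pool.Agent.Results.MP_9a5413_an.BlaschkeDouglas

open Metric Pool.Agent.Helper59 Pool.Agent.Helper59.DGA Pool.Agent.Helper81.DGX

/-- For a Douglas algebra `D` the following are equivalent: every inner function invertible in `D`
is a Blaschke product; for every `B` invertible in `D` and `ε > 0`, each positive harmonic function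
bounded on `{|B| > 1 - ε}` is bounded; for every such `B`, `ε`, every compact null set `K` and
`η > 0`, the function `1` is majorised on `K` by a finite positive combination, of total mass less
than `η`, of Poisson kernels at points of `{|B| > 1 - ε}`. If `D` is generated by a family `F` of
inner functions, it is enough to consider the sets where finitely many members of `F` have modulus
`> 1 - ε`, and a further equivalent condition is: for each finite product `B` of members of `F` and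
each `v` in `H^∞` of norm less than one, all inner divisors of `B + v` are Blaschke products. If
`D` is generated by Blaschke products with the zeros `a j i`, the sets may be replaced by those
where the sums over `i` of `(1 - |z|²) (1 - |a j i|²) / |1 - conj (a j i) z|²` are less than `ε`
for finitely many `j`. -/
theorem result :
    (∀ D : Set (Cir → ℂ), IsDouglas D →
      [∀ I ∈ DGA.Inv D, IsBlaschke I,
        ∀ B ∈ DGA.Inv D, ∀ ε > 0, ∀ h : ℂ → ℝ, PosHarm h →
          BddAbove (h '' Lev B ε) → BddAbove (h '' ball 0 1),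
        ∀ B ∈ DGA.Inv D, ∀ ε > 0, ∀ K : Set Cir, IsCompact K → mC K = 0 → ∀ η > 0,
          ∃ (S : Finset ℂ) (a : ℂ → ℝ), (∀ z ∈ S, z ∈ Lev B ε ∧ 0 ≤ a z) ∧ ∑ z ∈ S, a z < η ∧
            ∀ t ∈ K, 1 ≤ ∑ z ∈ S, a z * P z t].TFAE) ∧
    (∀ F : Set (Cir → ℂ), (∀ B ∈ F, IsInner B) → ∃ D, IsGen D F) ∧
    (∀ D F : Set (Cir → ℂ), IsGen D F →
      [∀ I ∈ DGA.Inv D, IsBlaschke I,
        ∀ s : Finset (Cir → ℂ), (s : Set (Cir → ℂ)) ⊆ F → ∀ ε > 0, ∀ h : ℂ → ℝ, PosHarm h →
          BddAbove (h '' Levs s ε) → BddAbove (h '' ball 0 1),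
        ∀ s : Finset (Cir → ℂ), (s : Set (Cir → ℂ)) ⊆ F → ∀ ε > 0,
          ∀ K : Set Cir, IsCompact K → mC K = 0 → ∀ η > 0,
          ∃ (S : Finset ℂ) (a : ℂ → ℝ), (∀ z ∈ S, z ∈ Levs s ε ∧ 0 ≤ a z) ∧ ∑ z ∈ S, a z < η ∧
            ∀ t ∈ K, 1 ≤ ∑ z ∈ S, a z * P z t,
        ∀ B ∈ Submonoid.closure F, ∀ v ∈ Hinf, ∀ ρ < 1, (∀ᵐ t ∂mC, ‖v t‖ ≤ ρ) →
          ∀ I, IsInner I → ∀ k ∈ Hinf, (∀ᵐ t ∂mC, B t + v t = I t * k t) →
            IsBlaschke I].TFAE) ∧
    (∀ (J : Type) (B : J → Cir → ℂ) (ι : J → Type) (a : ∀ j, ι j → ℂ),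
      (∀ j, HasZeros (B j) (a j)) → ∀ D, IsGen D (Set.range B) →
      ((∀ I ∈ DGA.Inv D, IsBlaschke I) ↔
        ∀ s : Finset J, ∀ ε > 0, ∀ K : Set Cir, IsCompact K → mC K = 0 → ∀ η > 0,
          ∃ (S : Finset ℂ) (m : ℂ → ℝ),
            (∀ z ∈ S, ‖z‖ < 1 ∧ 0 ≤ m z ∧ ∀ j ∈ s, ∑' i, gap (a j i) z < ε) ∧
            ∑ z ∈ S, m z < η ∧ ∀ t ∈ K, 1 ≤ ∑ z ∈ S, m z * P z t)) :=
  ⟨main_all, exists_isGen, main_gen4, fun _ B ι a hB _ hD => zeros_iff B ι a hB hD⟩

end Pool.Agent.Results.MP_9a5413_an.BlaschkeDouglas
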